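import Pool.Agent.Lib.MP_f79371_al.Concrete
import Pool.Agent.Lib.MP_f79371_al.Yoneda

/-!
The Yoneda algebra of the trivial module of the Temperley-Lieb algebra on `2 n` strands is
`R[x]/(a x)` with `x` in degree `2 n`.
-/

namespace Pool.Agent.Results.MP_f79371_al.YonedaAlgebra

open Pool.Agent.Lib.MP_f79371_al
open scoped ModuleCat.Algebra

universe u

theorem result (R : Type u) [CommRing R] (a : R) (n : ℕ) (hn : 1 ≤ n)
    (ha : a ∈ nonZeroDivisors R) (hfac : IsUnit ((n.factorial : ℕ) : R ⧸ Ideal.span {a})) :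
    YonedaIso R (ModuleCat.of (TL R a (2 * n)) (Triv (aug R a (2 * n)))) a (2 * n) := by
  obtain ⟨e, h1, h2, h3⟩ := (TL.data n ha hfac).main hn TL.torsion
  exact ⟨e, fun i => congrArg SetLike.coe (h1 i), h2, h3⟩

end Pool.Agent.Results.MP_f79371_al.YonedaAlgebra
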